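import Pool.Agent.KS6_22.CU.B.Defs

/-!
# An undetermined multiboard game in the Cohen model
-/

namespace Pool.Agent.KS6_22.CU.B

open Cardinal Set Pool.Agent.KS6_22.CU.F.Forcing Pool.Agent.KS6_22.CU.G.Cohen

universe u v w

/-- finite sequences of bits -/
abbrev T : Type := Σ n : ℕ, (Fin n → Bool)

section General

variable {P : Type u} [Preorder P]

/-- `p` forces that `N` names exactly one element of `Y` -/
def Val {Y : Type w} (N : Y → Set P) (p : P) : Prop :=
  (∀ q ≤ p, ∃ r ≤ q, ∃ y, r ∈ meets (N y)) ∧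
    ∀ q ≤ p, ∀ y y', q ∈ meets (N y) → q ∈ meets (N y') → y = y'

theorem isFun_iff_val {X : Type v} {Y : Type w} {f : X → Y → Set P} {p : P} :
    p ∈ IsFun f ↔ ∀ x, Val (f x) p := isFun_iff

theorem Val.mono {Y : Type w} {N : Y → Set P} {p q : P} (h : Val N p) (hq : q ≤ p) : Val N q :=
  ⟨fun r hr => h.1 r (hr.trans hq), fun r hr => h.2 r (hr.trans hq)⟩

theorem val_mapName {X : Type v} {Y : Type w} {Z : Type w} (g : Y → Z) {f : X → Y → Set P} {x : X}
    {p : P} (h : Val (f x) p) : Val (mapName g f x) p := by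
  refine ⟨fun q hq => ?_, fun q hq z z' h1 h2 => ?_⟩
  · obtain ⟨r, hr, y, hy⟩ := h.1 q hq
    exact ⟨r, hr, g y, meets_mapName_of hy⟩
  · obtain ⟨r, hr, y, rfl, hy⟩ := meets_mapName h1
    obtain ⟨s, hs, y', rfl, hy'⟩ := meets_mapName (down_meets _ _ h2 r hr)
    rw [h.2 s (hs.trans (hr.trans hq)) y y' (down_meets _ _ hy s hs) hy']

theorem val_mapName' {X : Type v} {Y : Type w} {Z : Type*} (g : Y → Z) {f : X → Y → Set P} {x : X}
    {p : P} (h : Val (f x) p) : Val (mapName g f x) p := by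
  refine ⟨fun q hq => ?_, fun q hq z z' h1 h2 => ?_⟩
  · obtain ⟨r, hr, y, hy⟩ := h.1 q hq
    exact ⟨r, hr, g y, meets_mapName_of hy⟩
  · obtain ⟨r, hr, y, rfl, hy⟩ := meets_mapName h1
    obtain ⟨s, hs, y', rfl, hy'⟩ := meets_mapName (down_meets _ _ h2 r hr)
    rw [h.2 s (hs.trans (hr.trans hq)) y y' (down_meets _ _ hy s hs) hy']

theorem mapName_congr {X : Type v} {Y : Type w} {Z : Type*} (g : Y → Z) {f f' : X → Y → Set P}
    {x : X} (h : f x = f' x) : mapName g f x = mapName g f' x := by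
  unfold mapName
  rw [h]

/-- the values `τ (x 0, …, x n)` -/
def App (x : ℕ → Bool → Set P) (τ : T → Bool → Set P) : ℕ → Bool → Set P :=
  fun n b => {p | ∃ l : Fin (n + 1) → Bool, (∀ i : Fin (n + 1), p ∈ meets (x i (l i))) ∧
    p ∈ meets (τ ⟨n + 1, l⟩ b)}

theorem down_App (x : ℕ → Bool → Set P) (τ : T → Bool → Set P) (n : ℕ) (b : Bool) :
    Down (App x τ n b) := by
  rintro p ⟨l, h1, h2⟩ q hq
  exact ⟨l, fun i => down_meets _ _ (h1 i) q hq, down_meets _ _ h2 q hq⟩

theorem App_congr {x x' : ℕ → Bool → Set P} {τ : T → Bool → Set P} {n : ℕ}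
    (h : ∀ i < n + 1, x i = x' i) : App x τ n = App x' τ n := by
  funext b
  ext p
  simp only [App, Set.mem_ofPred_eq]
  constructor
  · rintro ⟨l, h1, h2⟩
    exact ⟨l, fun i => by rw [← h i i.2]; exact h1 i, h2⟩
  · rintro ⟨l, h1, h2⟩
    exact ⟨l, fun i => by rw [h i i.2]; exact h1 i, h2⟩

theorem decide_fin (x : ℕ → Bool → Set P) (p : P) (k : ℕ)
    (h : ∀ i < k, Val (x i) p) : ∀ q ≤ p, ∃ r ≤ q, ∃ l : ℕ → Bool,
      ∀ i < k, r ∈ meets (x i (l i)) := by
  classical
  intro q hq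
  induction k with
  | zero => exact ⟨q, le_rfl, fun _ => true, fun i hi => absurd hi (Nat.not_lt_zero i)⟩
  | succ k ih =>
    obtain ⟨r, hr, l, hl⟩ := ih (fun i hi => h i (by omega))
    obtain ⟨s, hs, b, hb⟩ := (h k (by omega)).1 r (hr.trans hq)
    refine ⟨s, hs.trans hr, fun i => if i = k then b else l i, fun i hi => ?_⟩
    by_cases hik : i = k
    · subst hik
      simpa using hb
    · have h1 : (fun i => if i = k then b else l i) i = l i := if_neg hik
      rw [h1]
      exact down_meets _ _ (hl i (by omega)) s hs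

theorem val_App {x : ℕ → Bool → Set P} {τ : T → Bool → Set P} {n : ℕ} {p : P}
    (hx : ∀ i < n + 1, Val (x i) p) (hτ : ∀ l, Val (τ l) p) : Val (App x τ n) p := by
  refine ⟨fun q hq => ?_, fun q hq b b' h1 h2 => ?_⟩
  · obtain ⟨r, hr, l, hl⟩ := decide_fin x p (n + 1) hx q hq
    obtain ⟨s, hs, b, hb⟩ := (hτ ⟨n + 1, fun i => l i⟩).1 r (hr.trans hq)
    exact ⟨s, hs.trans hr, b, meets_of_mem ⟨fun i => l i,
      fun i => down_meets _ _ (hl i i.2) s hs, hb⟩⟩
  · obtain ⟨r, hr, l, hl, hb⟩ := exists_of_meets (down_App x τ n b) h1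
    obtain ⟨s, hs, l', hl', hb'⟩ :=
      exists_of_meets (down_App x τ n b') (down_meets _ _ h2 r hr)
    have h3 : l = l' := by
      funext i
      exact (hx i i.2).2 s (hs.trans (hr.trans hq)) _ _ (down_meets _ _ (hl i) s hs) (hl' i)
    subst h3
    exact (hτ _).2 s (hs.trans (hr.trans hq)) _ _ (down_meets _ _ hb s hs) hb'

theorem exists_seq {M : Type u} (m₀ : M) (step : ℕ → (ℕ → M) → M)
    (hloc : ∀ n f g, (∀ i < n, f i = g i) → step n f = step n g) :
    ∃ y : ℕ → M, ∀ n, y n = step n y := by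
  classical
  let y : ℕ → M := Nat.lt_wfRel.wf.fix
    (fun n rec => step n (fun i => if h : i < n then rec i h else m₀))
  refine ⟨y, fun n => ?_⟩
  have h1 : y n = step n (fun i => if h : i < n then y i else m₀) :=
    Nat.lt_wfRel.wf.fix_eq _ n
  rw [h1]
  apply hloc
  intro i hi
  simp [hi]

end General

section Cohen

variable {ι : Type}

/-- the Cohen real with index `ξ` -/
def c (ξ : ι) (n : ℕ) (b : Bool) : Set (Fn ι) := {p | ((ξ, n), b) ∈ p.g}

theorem down_c (ξ : ι) (n : ℕ) (b : Bool) : Down (c ξ n b) := fun _ hp _ hq => hq hp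

theorem val_c (ξ : ι) (n : ℕ) (p : Fn ι) : Val (c ξ n) p := by
  classical
  refine ⟨fun q _ => ?_, fun q _ b b' h1 h2 => ?_⟩
  · by_cases h : ∃ b, ((ξ, n), b) ∈ q.g
    · obtain ⟨b, hb⟩ := h
      exact ⟨q, le_rfl, b, meets_of_mem hb⟩
    · push Not at h
      refine ⟨⟨insert ((ξ, n), true) q.g, fun a b b' hb hb' => ?_⟩, Finset.subset_insert _ _,
        true, meets_of_mem (Finset.mem_insert_self _ _)⟩
      rcases Finset.mem_insert.1 hb with hb | hb <;> rcases Finset.mem_insert.1 hb' with hb' | hb'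
      · simp only [Prod.mk.injEq] at hb hb'
        rw [hb.2, hb'.2]
      · simp only [Prod.mk.injEq] at hb
        obtain ⟨rfl, rfl⟩ := hb
        exact absurd hb' (h _)
      · simp only [Prod.mk.injEq] at hb'
        obtain ⟨rfl, rfl⟩ := hb'
        exact absurd hb (h _)
      · exact q.fn a b b' hb hb'
  · obtain ⟨r, hr, hr'⟩ := exists_of_meets (down_c ξ n b) h1
    obtain ⟨s, hs, hs'⟩ := exists_of_meets (down_c ξ n b') (down_meets _ _ h2 r hr)
    exact s.fn _ _ _ (down_c ξ n b _ hr' _ hs) hs'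

/-- a countable name for a function from `T` to `Bool` -/
def nmT (d : T → ℕ → Option (Fn ι × Bool)) (t : T) (b : Bool) : Set (Fn ι) :=
  {q | ∃ j, d t j = some (q, b)}

theorem exists_nmT (x : T → Bool → Set (Fn ι)) :
    ∃ d, (∀ p, p ∈ IsFun (nmT d)) ∧ ∀ p ∈ IsFun x, p ∈ Same x (nmT d) := by
  classical
  have hD : ∀ n, ∃ A ⊆ {q : Fn ι | (∃ m, q ∈ meets (x n m) ∧ q ∈ IsFun x) ∨
      q ∈ fnot (IsFun x)}, A.Countable ∧ (∀ p, ∃ a ∈ A, Compat a p) ∧
      ∀ a ∈ A, ∀ b ∈ A, Compat a b → a = b := by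
    intro n
    apply exists_antichain
    intro q
    by_cases hq : q ∈ fnot (IsFun x)
    · exact ⟨q, le_rfl, Or.inr hq⟩
    · simp only [fnot, Set.mem_ofPred_eq, not_forall, not_not] at hq
      obtain ⟨q', hq', hfun⟩ := hq
      obtain ⟨q'', hq'', m, hm⟩ := IsFun.total hfun n
      exact ⟨q'', hq''.trans hq', Or.inl ⟨m, hm, down_IsFun x _ hfun _ hq''⟩⟩
  choose A hAD hAc hApre hAanti using hD
  have hval : ∀ n, ∀ a : Fn ι, ∃ m, a ∈ A n → (a ∈ meets (x n m) ∨ a ∈ fnot (IsFun x)) := by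
    intro n a
    by_cases ha : a ∈ A n
    · rcases hAD n ha with ⟨m, h1, _⟩ | h
      · exact ⟨m, fun _ => Or.inl h1⟩
      · exact ⟨true, fun _ => Or.inr h⟩
    · exact ⟨true, fun h => absurd h ha⟩
  choose v hv using hval
  have hcode : ∀ n, ∃ g : ℕ → Option (Fn ι × Bool), ∀ q m, (∃ j, g j = some (q, m)) ↔
      (q ∈ A n ∧ v n q = m) := by
    intro n
    obtain ⟨a₀, ha₀, _⟩ := hApre n (Classical.arbitrary _)
    have : Nonempty (A n) := ⟨⟨a₀, ha₀⟩⟩
    have hc : Countable (A n) := hAc n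
    obtain ⟨g, hg⟩ := exists_surjective_nat (A n)
    refine ⟨fun j => some ((g j).1, v n (g j).1), fun q m => ?_⟩
    constructor
    · rintro ⟨j, hj⟩
      simp only [Option.some.injEq, Prod.mk.injEq] at hj
      obtain ⟨rfl, rfl⟩ := hj
      exact ⟨(g j).2, rfl⟩
    · rintro ⟨hq, rfl⟩
      obtain ⟨j, hj⟩ := hg ⟨q, hq⟩
      exact ⟨j, by simp [hj]⟩
  choose d hd using hcode
  have hmem : ∀ n m q, q ∈ nmT d n m ↔ (q ∈ A n ∧ v n q = m) := fun n m q => hd n q m
  refine ⟨d, fun p => ⟨fun n => mem_fex.2 fun q _ => ?_, fun n m m' => mem_fimp.2 fun q _ h => ?_⟩,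
    fun p hp n a b => mem_fimp.2 fun q hq h => ?_⟩
  · obtain ⟨a, ha, s, hs1, hs2⟩ := hApre n q
    exact ⟨s, hs2, v n a, meets_of_le ((hmem n _ a).2 ⟨ha, rfl⟩) hs1⟩
  · obtain ⟨r, hr, a, ha, hra⟩ := h.1 q le_rfl
    obtain ⟨r', hr', a', ha', hra'⟩ := h.2 r hr
    obtain ⟨ha1, rfl⟩ := (hmem n _ a).1 ha
    obtain ⟨ha2, rfl⟩ := (hmem n _ a').1 ha'
    have : a = a' := hAanti n a ha1 a' ha2 ⟨r', hr'.trans hra, hra'⟩
    exact ⟨q, le_rfl, by rw [this]; rfl⟩
  · obtain ⟨r, hr, s, hs, hrs⟩ := h.2 q le_rfl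
    obtain ⟨hs1, rfl⟩ := (hmem n _ s).1 hs
    have hfun : r ∈ IsFun x := down_IsFun x p hp r (hr.trans hq)
    rcases hv n s hs1 with h1 | h1
    · exact ⟨r, hr, IsFun.unique hfun (down_meets _ _ h.1 r hr) (down_meets _ _ h1 r hrs)⟩
    · exact absurd hfun (h1 r hrs)

theorem exists_codes (hι : ℵ₀ < #ι) (hpow : #ι ^ ℵ₀ = #ι) :
    ∃ τ : ι → T → Bool → Set (Fn ι), (∀ ξ p, p ∈ IsFun (τ ξ)) ∧
      ∀ σ : T → Bool → Set (Fn ι), ∀ p ∈ IsFun σ, ∃ ξ, p ∈ Same σ (τ ξ) := by
  classical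
  let N := {d : T → ℕ → Option (Fn ι × Bool) // ∀ p, p ∈ IsFun (nmT d)}
  have hN : #N ≤ #ι := by
    refine (mk_subtype_le _).trans ?_
    have h2 : ∀ (X Y : Type), Countable Y → #X ≤ #ι → #(Y → X) ≤ #ι := by
      intro X Y hY hX
      have h3 : #(Y → X) = #X ^ #Y := by
        simp [mk_pi]
      rw [h3]
      refine (power_le_power_right hX).trans ?_
      refine (power_le_power_left ?_ mk_le_aleph0).trans hpow.le
      exact (aleph0_pos.trans hι).ne'
    refine h2 _ _ inferInstance (h2 _ _ inferInstance ?_)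
    rw [mk_option, mk_prod]
    simp only [lift_uzero, mk_bool]
    have h3 : (2 : Cardinal.{0}) ≤ #ι := (Cardinal.natCast_lt_aleph0 (n := 2)).le.trans hι.le
    exact (add_le_add ((mul_le_mul' (mk_Fn_le hι) h3).trans (mul_eq_self hι.le).le)
      (one_le_aleph0.trans hι.le)).trans (add_eq_self hι.le).le
  have hne : Nonempty N := by
    obtain ⟨c, hc, _⟩ := exists_nmT (ι := ι) fun _ _ => ∅
    exact ⟨⟨c, hc⟩⟩
  obtain ⟨g⟩ : Nonempty (N ↪ ι) := Cardinal.le_def _ _ |>.1 hN
  have hsurj : Function.Surjective (Function.invFun g) := Function.invFun_surjective g.injective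
  refine ⟨fun i => nmT (Function.invFun g i).1, fun i p => (Function.invFun g i).2 p,
    fun σ p hp => ?_⟩
  obtain ⟨d, hd1, hd2⟩ := exists_nmT σ
  obtain ⟨i, hi⟩ := hsurj ⟨d, hd1⟩
  refine ⟨i, ?_⟩
  have h2 : p ∈ Same σ (nmT (Function.invFun g i).1) := by
    rw [show (Function.invFun g i).1 = d from congrArg Subtype.val hi]
    exact hd2 p hp
  exact h2

/-- the countable support of a name for an element of `L` -/
theorem exists_supp [Nonempty ι] {L : Type w} (q : Fn ι) (N : L → Set (Fn ι)) :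
    ∃ b : ℕ → ι, (∀ q' ≤ q, ∃ r ≤ q', ∃ y, r ∈ meets (N y)) → ∀ p ≤ q,
      ∃ a : Fn ι, (∀ z ∈ a.g, ∃ k, z.1.1 = b k) ∧ Compat a p ∧ ∃ y, a ∈ meets (N y) := by
  classical
  by_cases hq : ∀ q' ≤ q, ∃ r ≤ q', ∃ y, r ∈ meets (N y)
  · obtain ⟨A, hAE, hAc, hApre, _⟩ := exists_antichain
      (E := {r : Fn ι | (∃ y, r ∈ meets (N y)) ∨ ¬ Compat r q}) (by
        intro r
        by_cases hr : Compat r q
        · obtain ⟨s, h1, h2⟩ := hr
          obtain ⟨t, h3, y, hy⟩ := hq s h2
          exact ⟨t, h3.trans h1, Or.inl ⟨y, hy⟩⟩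
        · exact ⟨r, le_rfl, Or.inr hr⟩)
    have hB : (insert (Classical.arbitrary ι)
        (⋃ a ∈ A, (fun y : (ι × ℕ) × Bool => y.1.1) '' (a.g : Set ((ι × ℕ) × Bool)))).Countable :=
      (hAc.biUnion fun a _ => (Finset.countable_toSet _).image _).insert _
    obtain ⟨b, hb⟩ := hB.exists_eq_range (Set.insert_nonempty _ _)
    refine ⟨b, fun _ p hp => ?_⟩
    obtain ⟨a, ha, hc⟩ := hApre p
    refine ⟨a, fun z hz => ?_, hc, ?_⟩
    · have h1 : z.1.1 ∈ Set.range b := by
        rw [← hb]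
        exact Or.inr (mem_biUnion ha ⟨z, Finset.mem_coe.2 hz, rfl⟩)
      obtain ⟨k, hk⟩ := h1
      exact ⟨k, hk.symm⟩
    · rcases hAE ha with h | h
      · exact h
      · obtain ⟨s, h1, h2⟩ := hc
        exact absurd ⟨s, h1, h2.trans hp⟩ h
  · exact ⟨fun _ => Classical.arbitrary ι, fun h => absurd h hq⟩

/-- an enumeration of the support -/
noncomputable def sup [Nonempty ι] {L : Type w} (q : Fn ι) (N : L → Set (Fn ι)) : ℕ → ι :=
  Classical.choose (exists_supp q N)

theorem sup_spec [Nonempty ι] {L : Type w} (q : Fn ι) (N : L → Set (Fn ι))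
    (h : ∀ q' ≤ q, ∃ r ≤ q', ∃ y, r ∈ meets (N y)) : ∀ p ≤ q,
      ∃ a : Fn ι, (∀ z ∈ a.g, ∃ k, z.1.1 = sup q N k) ∧ Compat a p ∧ ∃ y, a ∈ meets (N y) :=
  Classical.choose_spec (exists_supp q N) h

variable {L : Type w}

/-- the payoff set: for some index `ξ`, ONE plays (the code of) the Cohen real `c ξ`, and the codes
of the moves of TWO are given by the strategy with the name `τ ξ` -/
def payoff (e : Bool → L) (bit : L → Bool) (τ : ι → T → Bool → Set (Fn ι)) :
    SetName (Fn ι) ℕ L where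
  mem z := fex fun ξ : ι => fand (Same (fun n => z (2 * n)) (mapName e (c ξ)))
    (Same (mapName bit fun n => z (2 * n + 1)) (App (c ξ) (τ ξ)))
  down z := down_fex _
  dense z p h := dense_fex h
  ext z z' p hz hz' hs h := by
    rw [isFun_iff_val] at hz hz'
    rw [same_iff] at hs
    rw [mem_fex] at h ⊢
    intro q hq
    obtain ⟨r, hr, ξ, h1, h2⟩ := h q hq
    rw [same_iff] at h1 h2
    have hrp := hr.trans hq
    refine ⟨r, hr, ξ, ?_, ?_⟩
    · rw [same_iff]
      intro n s hs' a b h3 h4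
      obtain ⟨t, ht, y, hy⟩ := (hz (2 * n)).1 s (hs'.trans hrp)
      rw [← hs (2 * n) t (ht.trans (hs'.trans hrp)) y a hy (down_meets _ _ h3 t ht)]
      exact h1 n t (ht.trans hs') y b hy (down_meets _ _ h4 t ht)
    · rw [same_iff]
      intro n s hs' a b h3 h4
      obtain ⟨t, ht, y, rfl, hy⟩ := meets_mapName h3
      obtain ⟨t', ht', y', hy'⟩ := (hz (2 * n + 1)).1 t (ht.trans (hs'.trans hrp))
      have h5 := hs (2 * n + 1) t' (ht'.trans (ht.trans (hs'.trans hrp))) y' y hy'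
        (down_meets _ _ hy t' ht')
      subst h5
      exact h2 n t' (ht'.trans (ht.trans hs')) (bit y') b
        (meets_mapName_of (f := fun n => z (2 * n + 1)) hy')
        (down_meets _ _ h4 t' (ht'.trans ht))

theorem board_even {K : Type v} {P : Type u} [Preorder P] (x y : ℕ → K → L → Set P) (α : K)
    (n : ℕ) : board x y α (2 * n) = x n α := by
  have h1 : 2 * n % 2 = 0 := by omega
  have h2 : 2 * n / 2 = n := by omega
  simp only [board, h1, h2, if_true]

theorem board_odd {K : Type v} {P : Type u} [Preorder P] (x y : ℕ → K → L → Set P) (α : K)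
    (n : ℕ) : board x y α (2 * n + 1) = y n α := by
  have h1 : ¬ (2 * n + 1) % 2 = 0 := by omega
  have h2 : (2 * n + 1) / 2 = n := by omega
  simp only [board, h1, h2, if_false]

/-- TWO has no winning strategy -/
theorem two_not_wins {K : Type v} [Nonempty K] (e : Bool → L) (bit : L → Bool)
    (hbe : ∀ b, bit (e b) = b) {τ : ι → T → Bool → Set (Fn ι)} (hτ : ∀ ξ p, p ∈ IsFun (τ ξ))
    (hτ' : ∀ σ : T → Bool → Set (Fn ι), ∀ p ∈ IsFun σ, ∃ ξ, p ∈ Same σ (τ ξ)) (p : Fn ι) :
    p ∈ fnot (TwoWins K (payoff e bit τ)) := by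
  intro q' _ hq'
  obtain ⟨q, _, F, hF, hwin⟩ := mem_fex.1 hq' q' le_rfl
  obtain ⟨α⟩ := ‹Nonempty K›
  let cst : L → K → L → Set (Fn ι) := fun l _ l' => fground (l = l')
  have hcst' : ∀ l α l' r, r ∈ meets (cst l α l') → l = l' := by
    intro l α l' r hr
    obtain ⟨_, _, s, hs, _⟩ := hr r le_rfl
    exact hs
  have hcst : ∀ l r, r ∈ IsFun (cst l) := by
    intro l r
    rw [isFun_iff]
    intro x
    refine ⟨fun s _ => ⟨s, le_rfl, l, meets_of_mem rfl⟩, fun s _ y y' h1 h2 => ?_⟩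
    rw [← hcst' _ x _ _ h1, ← hcst' _ x _ _ h2]
  let σ : T → Bool → Set (Fn ι) := mapName bit fun t : T => F t.1 (fun i => cst (e (t.2 i))) α
  have hσ : q ∈ IsFun σ := by
    rw [isFun_iff_val]
    intro t
    apply val_mapName'
    exact isFun_iff_val.1 (strat_isFun hF t.1 _ fun i => hcst _ _) α
  obtain ⟨ξ, hξ⟩ := hτ' σ q hσ
  let x : ℕ → K → L → Set (Fn ι) := fun n _ => mapName e (c ξ) n
  have hx : ∀ n r, r ∈ IsFun (x n) := fun n r =>
    isFun_iff_val.2 fun _ => val_mapName' e (val_c ξ n r)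
  obtain ⟨r, hr, hr'⟩ := fimp_mp (hwin x) (fun n => hx n q)
  refine hr' r le_rfl ?_
  refine mem_fex_of_mem α ((payoff e bit τ).down _) ?_
  refine mem_fex_of_mem ξ (down_fand (down_Same _ _) (down_Same _ _)) ⟨?_, ?_⟩
  · rw [same_iff]
    intro n s _ a b h1 h2
    rw [board_even] at h1
    exact (isFun_iff_val.1 (hx n s) α).2 s le_rfl a b h1 h2
  · rw [same_iff]
    intro n s hs a b h1 h2
    simp only [board_odd] at h1
    obtain ⟨s1, hs1, l, hl, hb⟩ := exists_of_meets (down_App _ _ _ _) h2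
    obtain ⟨s2, hs2, y1, hy1, h3⟩ := meets_mapName (down_meets _ _ h1 s1 hs1)
    have hs2q : s2 ≤ q := hs2.trans (hs1.trans (hs.trans hr))
    have hsame : s2 ∈ Same (F (n + 1) fun i => x i) (F (n + 1) fun i => cst (e (l i))) := by
      refine strat_same (down_IsStrategy F _ hF _ hs2q) _ _ _ (fun i => hx _ _) (fun i => hcst _ _) ?_
      intro i
      rw [same_iff]
      intro β t ht a' b' h4 h5
      rw [← hcst' _ β _ _ h5]
      obtain ⟨t', ht', b'', rfl, h6⟩ := meets_mapName h4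
      rw [(val_c ξ i t').2 t' le_rfl b'' (l i) h6
        (down_meets _ _ (hl i) t' (ht'.trans (ht.trans hs2)))]
    obtain ⟨s3, hs3, y2, hy2⟩ := (isFun_iff_val.1
      (strat_isFun hF (n + 1) (fun i => cst (e (l i))) fun i => hcst _ _) α).1 s2 hs2q
    have h4 := same_iff.1 hsame α s3 hs3 y1 y2 (down_meets _ _ h3 s3 hs3) hy2
    rw [← hy1, h4]
    refine same_iff.1 hξ ⟨n + 1, l⟩ s3 (hs3.trans hs2q) (bit y2) b ?_
      (down_meets _ _ hb s3 (hs3.trans hs2))
    exact meets_mapName_of (f := fun t : T => F t.1 (fun i => cst (e (t.2 i))) α)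
      (x := (⟨n + 1, l⟩ : T)) hy2

/-- ONE has no winning strategy -/
theorem one_not_wins [Nonempty ι] {K : Type v} (e : Bool → L) (bit : L → Bool)
    (hbe : ∀ b, bit (e b) = b) {τ : ι → T → Bool → Set (Fn ι)} (hτ : ∀ ξ p, p ∈ IsFun (τ ξ))
    (p : Fn ι) : p ∈ fnot (OneWins K (payoff e bit τ)) := by
  classical
  intro q' _ hq'
  obtain ⟨q, _, F, hF, hwin⟩ := mem_fex.1 hq' q' le_rfl
  obtain ⟨y, hy⟩ := exists_seq (M := K → L → Set (Fn ι)) (fun _ _ => ∅)
    (fun n f α => mapName (fun b : Bool => e (!b))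
      (App (mapName bit fun i => F i (fun j => f j) α)
        (τ (sup q (F n.unpair.1 (fun j => f j) α) n.unpair.2))) n) (by
    intro n f g hfg
    have h1 : ∀ i < n + 1, (F i fun j : Fin i => f j) = F i fun j : Fin i => g j := by
      intro i hi
      congr 1
      funext j
      exact hfg j (by omega)
    funext α
    have h2 := h1 n.unpair.1 (Nat.lt_succ_of_le (Nat.unpair_left_le n))
    have h3 : App (mapName bit fun i => F i (fun j => f j) α)
        (τ (sup q (F n.unpair.1 (fun j => g j) α) n.unpair.2)) n =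
        App (mapName bit fun i => F i (fun j => g j) α)
        (τ (sup q (F n.unpair.1 (fun j => g j) α) n.unpair.2)) n := by
      apply App_congr
      intro i hi
      exact mapName_congr bit (congrFun (h1 i hi) α)
    rw [h2]
    exact mapName_congr _ h3)
  let X : ℕ → K → L → Set (Fn ι) := fun i => F i fun j => y j
  have hy' : ∀ n α, y n α = mapName (fun b : Bool => e (!b))
      (App (mapName bit fun i => X i α) (τ (sup q (X n.unpair.1 α) n.unpair.2))) n :=
    fun n α => congrFun (hy n) α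
  have hfun : ∀ n, q ∈ IsFun (y n) := by
    intro n
    induction n using Nat.strong_induction_on with
    | _ n ih =>
      rw [isFun_iff_val]
      intro α
      rw [hy']
      apply val_mapName'
      apply val_App
      · intro i hi
        apply val_mapName'
        exact isFun_iff_val.1 (strat_isFun hF i _ fun j => ih j (by omega)) α
      · exact isFun_iff_val.1 (hτ _ _)
  have hX : ∀ n, q ∈ IsFun (X n) := fun n => strat_isFun hF n _ fun j => hfun j
  obtain ⟨r, hr, hr'⟩ := fimp_mp (hwin y) hfun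
  obtain ⟨r1, hr1, α, hα⟩ := mem_fex.1 hr' r le_rfl
  obtain ⟨p, hp, ξ, h1, h2⟩ := mem_fex.1 hα r1 le_rfl
  have hpq : p ≤ q := hp.trans (hr1.trans hr)
  simp only [board_even, board_odd] at h1 h2
  rw [same_iff] at h1 h2
  by_cases hξ : ∃ i k, ξ = sup q (X i α) k
  · obtain ⟨i, k, hik⟩ := hξ
    have hn : y (Nat.pair i k) α = mapName (fun b : Bool => e (!b))
        (App (mapName bit fun i => X i α) (τ ξ)) (Nat.pair i k) := by
      rw [hy', Nat.unpair_pair, ← hik]
    set n := Nat.pair i k with hndef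
    have hvalX : ∀ i, Val (mapName bit (fun i => X i α) i) p := fun i =>
      val_mapName' bit ((isFun_iff_val.1 (hX i) α).mono hpq)
    obtain ⟨p1, hp1, b, hb⟩ := (val_App (x := mapName bit fun i => X i α) (τ := τ ξ) (n := n)
      (fun i _ => hvalX i) (isFun_iff_val.1 (hτ ξ p))).1 p le_rfl
    obtain ⟨p2, hp2, l, hl, hlb⟩ := exists_of_meets (down_App _ _ _ _) hb
    have h3 : ∀ i : Fin (n + 1), p2 ∈ meets (c ξ i (l i)) := by
      intro i s hs
      obtain ⟨t, ht, b', hb'⟩ := (val_c ξ i s).1 s le_rfl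
      obtain ⟨t', ht', z, hz, hz'⟩ := meets_mapName (down_meets _ _ (hl i) t (ht.trans hs))
      have h4 := h1 i t' (ht'.trans (ht.trans (hs.trans (hp2.trans hp1)))) z (e b') hz'
        (meets_mapName_of (down_meets _ _ hb' t' ht'))
      rw [h4, hbe] at hz
      subst hz
      obtain ⟨t'', ht'', h5⟩ := exists_of_meets (down_c ξ i _) (down_meets _ _ hb' t' ht')
      exact ⟨t'', ht''.trans (ht'.trans ht), t'', h5, le_rfl⟩
    have h4 : p2 ∈ meets (App (c ξ) (τ ξ) n b) := meets_of_mem ⟨l, h3, hlb⟩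
    have h5 : p2 ∈ meets (y n α (e (!b))) := by
      rw [hn]
      exact meets_mapName_of (g := fun b : Bool => e (!b)) (down_meets _ _ hb p2 hp2)
    have h6 := h2 n p2 (hp2.trans hp1) (bit (e (!b))) b
      (meets_mapName_of (f := fun n => y n α) h5) h4
    rw [hbe] at h6
    cases b <;> simp at h6
  · push Not at hξ
    obtain ⟨n, hn⟩ : ∃ n, ∀ b, ((ξ, n), b) ∉ p.g := by
      by_contra hcon
      push Not at hcon
      choose f hf using hcon
      have hinj : Function.Injective fun n : ℕ => ((ξ, n), f n) := by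
        intro n m hnm
        simp only [Prod.mk.injEq, true_and] at hnm
        exact hnm.1
      exact Set.infinite_of_injective_forall_mem hinj hf (Finset.finite_toSet p.g)
    obtain ⟨a, ha, hcomp, l, hl⟩ := sup_spec q (X n α) (isFun_iff_val.1 (hX n) α).1 p hpq
    rw [compat_iff] at hcomp
    have ha' : ∀ b, ((ξ, n), b) ∉ a.g := by
      intro b hb
      obtain ⟨k, hk⟩ := ha _ hb
      exact hξ n k hk
    let s : Fn ι := ⟨insert ((ξ, n), !(bit l)) (a.g ∪ p.g), by
      intro z b b' hb hb'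
      rcases Finset.mem_insert.1 hb with hb | hb <;> rcases Finset.mem_insert.1 hb' with hb' | hb'
      · simp only [Prod.mk.injEq] at hb hb'
        rw [hb.2, hb'.2]
      · simp only [Prod.mk.injEq] at hb
        obtain ⟨rfl, rfl⟩ := hb
        rcases Finset.mem_union.1 hb' with h | h
        · exact absurd h (ha' _)
        · exact absurd h (hn _)
      · simp only [Prod.mk.injEq] at hb'
        obtain ⟨rfl, rfl⟩ := hb'
        rcases Finset.mem_union.1 hb with h | h
        · exact absurd h (ha' _)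
        · exact absurd h (hn _)
      · rcases Finset.mem_union.1 hb with h | h <;> rcases Finset.mem_union.1 hb' with h' | h'
        · exact a.fn _ _ _ h h'
        · exact hcomp _ _ _ h h'
        · exact (hcomp _ _ _ h' h).symm
        · exact p.fn _ _ _ h h'⟩
    have hsa : s ≤ a := Finset.subset_union_left.trans (Finset.subset_insert _ _)
    have hsp : s ≤ p := Finset.subset_union_right.trans (Finset.subset_insert _ _)
    have hsc : s ∈ c ξ n (!(bit l)) := Finset.mem_insert_self _ _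
    have h3 := h1 n s hsp l (e (!(bit l))) (down_meets _ _ hl s hsa)
      (meets_mapName_of (meets_of_mem hsc))
    have h4 := congrArg bit h3
    rw [hbe] at h4
    cases h5 : bit l <;> simp [h5] at h4

theorem undetermined {K : Type v} [Nonempty K] (e : Bool → L) (bit : L → Bool)
    (hbe : ∀ b, bit (e b) = b) (hι : ℵ₀ < #ι) {τ : ι → T → Bool → Set (Fn ι)}
    (hτ : ∀ ξ p, p ∈ IsFun (τ ξ))
    (hτ' : ∀ σ : T → Bool → Set (Fn ι), ∀ p ∈ IsFun σ, ∃ ξ, p ∈ Same σ (τ ξ)) (p : Fn ι) :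
    p ∈ Undetermined K (payoff e bit τ) := by
  have : Nonempty ι := by
    rw [← mk_ne_zero_iff]
    exact (aleph0_pos.trans hι).ne'
  exact ⟨one_not_wins e bit hbe hτ p, two_not_wins e bit hbe hτ hτ' p⟩

end Cohen

end Pool.Agent.KS6_22.CU.B
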